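import Mathlib
import Pool.Agent.X317.QCI.ExtSplit

/-!
# MP_315024_al: `Ext¹(M, M) ≠ 0` for all non-projective modules over quantum complete intersections
-/

set_option autoImplicit false
set_option linter.all false

namespace Pool.Agent.Results.MP_315024_al.SelfExtensions

open Pool.Agent.X317.QCI CategoryTheory CategoryTheory.Abelian MulOpposite

universe u

/-- The defining relations `x_i ^ a_i = 0` and `x_i x_j + q_{i,j} x_j x_i = 0` for `i > j`. -/
inductive Rel (K : Type u) [Field K] {n : ℕ} (a : Fin n → ℕ) (q : Fin n → Fin n → K) :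
    FreeAlgebra K (Fin n) → FreeAlgebra K (Fin n) → Prop
  | pow (i : Fin n) : Rel K a q (FreeAlgebra.ι K i ^ a i) 0
  | comm (i j : Fin n) (h : j < i) :
      Rel K a q (FreeAlgebra.ι K i * FreeAlgebra.ι K j + q i j • (FreeAlgebra.ι K j * FreeAlgebra.ι K i)) 0

/-- The quantum complete intersection
`K⟨x_1, …, x_n⟩ / (x_i ^ a_i, x_i x_j + q_{i,j} x_j x_i (i > j))`. -/
abbrev QuantumCI (K : Type u) [Field K] {n : ℕ} (a : Fin n → ℕ) (q : Fin n → Fin n → K) : Type u :=
  RingQuot (Rel K a q)

section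
variable (K : Type u) [Field K] {n : ℕ} (a : Fin n → ℕ) (q : Fin n → Fin n → K)

noncomputable def xx (i : Fin n) : QuantumCI K a q :=
  RingQuot.mkAlgHom K (Rel K a q) (FreeAlgebra.ι K i)

theorem isQ (ha : ∀ i, 0 < a i) (hq : ∀ i j, j < i → q i j ≠ 0) :
    IsQ K (R := (QuantumCI K a q)ᵐᵒᵖ) a q (fun i => op (xx K a q i)) where
  ap := ha
  q0 := hq
  pow := by
    intro i
    try dsimp only
    rw [← op_pow]
    have h := RingQuot.mkAlgHom_rel K (Rel.pow (K := K) (a := a) (q := q) i)
    rw [map_pow, map_zero] at h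
    have h' : xx K a q i ^ a i = 0 := h
    rw [h', op_zero]
  comm := by
    intro i j hij
    try dsimp only
    rw [← op_mul, ← op_mul, ← op_smul, ← MulOpposite.op_add]
    have h := RingQuot.mkAlgHom_rel K (Rel.comm (K := K) (a := a) (q := q) i j hij)
    rw [map_add, map_smul, map_mul, map_mul, map_zero] at h
    have h' : xx K a q i * xx K a q j + q i j • (xx K a q j * xx K a q i) = 0 := h
    rw [h', op_zero]
  gen := by
    rw [eq_top_iff]
    intro z _
    obtain ⟨w, hw⟩ := RingQuot.mkAlgHom_surjective K (Rel K a q) (unop z)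
    have hz : z = op (RingQuot.mkAlgHom K (Rel K a q) w) := by rw [hw, op_unop]
    rw [hz]
    clear hz hw
    induction w using FreeAlgebra.induction with
    | grade0 c =>
      rw [AlgHom.commutes]
      exact Subalgebra.algebraMap_mem _ c
    | grade1 i => exact Algebra.subset_adjoin ⟨i, rfl⟩
    | mul s t hs ht =>
      rw [map_mul, op_mul]
      exact Subalgebra.mul_mem _ ht hs
    | add s t hs ht =>
      rw [map_add, MulOpposite.op_add]
      exact Subalgebra.add_mem _ hs ht
  univ := by
    intro B _ _ b h1 h2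
    let f0 : FreeAlgebra K (Fin n) →ₐ[K] Bᵐᵒᵖ := FreeAlgebra.lift K (fun i => op (b i))
    have hf0 : ∀ i, f0 (FreeAlgebra.ι K i) = op (b i) := fun i => FreeAlgebra.lift_ι_apply _ _
    have hrel : ∀ ⦃x y : FreeAlgebra K (Fin n)⦄, Rel K a q x y → f0 x = f0 y := by
      intro x y hxy
      induction hxy with
      | pow i => rw [map_pow, map_zero, hf0, ← op_pow, h1, op_zero]
      | comm i j hij =>
        rw [map_add, map_smul, map_mul, map_mul, map_zero, hf0, hf0, ← op_mul, ← op_mul, ← op_smul,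
          ← MulOpposite.op_add, h2 i j hij, op_zero]
    let f1 : QuantumCI K a q →ₐ[K] Bᵐᵒᵖ := RingQuot.liftAlgHom K ⟨f0, hrel⟩
    have hf1 : ∀ i, f1 (xx K a q i) = op (b i) := by
      intro i
      have := RingQuot.liftAlgHom_mkAlgHom_apply K f0 hrel (FreeAlgebra.ι K i)
      rw [hf0] at this
      exact this
    refine ⟨AlgHom.opComm f1, fun i => ?_⟩
    show unop (f1 (unop (op (xx K a q i)))) = b i
    rw [unop_op, hf1, unop_op]

end

/-- **Negative answer to Q1.** Let `A` be a quantum complete intersection over any field `K`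
(any `n`, exponents `a_i ≥ 2`, non-zero parameters `q_{i,j}`). Then `Ext¹_A(M, M) ≠ 0` for every
finitely generated non-projective right `A`-module `M`. -/
theorem result : ∀ (K : Type u) [Field K] (n : ℕ) (a : Fin n → ℕ) (q : Fin n → Fin n → K),
    (∀ i, 2 ≤ a i) → (∀ i j, j < i → q i j ≠ 0) →
    ∀ (M : Type u) [AddCommGroup M] [Module (QuantumCI K a q)ᵐᵒᵖ M],
      Module.Finite (QuantumCI K a q)ᵐᵒᵖ M → ¬ Module.Projective (QuantumCI K a q)ᵐᵒᵖ M →
      ¬ Subsingleton (Ext (ModuleCat.of (QuantumCI K a q)ᵐᵒᵖ M)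
        (ModuleCat.of (QuantumCI K a q)ᵐᵒᵖ M) 1) := by
  intro K _ n a q ha hq M _ _ hfin hproj hext
  exact hproj ((isQ K a q (fun i => by have := ha i; omega) hq).main M
    (splits_of_ext _ M hext))

end Pool.Agent.Results.MP_315024_al.SelfExtensions
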